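import Pool.Agent.Helper221.BID.Main

/-!
# `k`-fold acyclic balls whose decompositions never have a subcomplex of bottoms (`k ≥ 2`)

See `Pool.Agent.Helper221.BID.not_decomp` for the obstruction: in a decomposition into rank `k`
boolean intervals whose bottoms form a subcomplex, the top `F` of the interval `[∅, F]` is a face
with `k` vertices such that `{a, b, x}` is a face whenever `a, b ∈ F` and `{a, x}`, `{b, x}` are
faces.  For `k = 2` the example is a 3-ball with 9 vertices and 19 tetrahedra, for larger `k` it is
an iterated cone over it.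
-/

set_option autoImplicit false

universe u

namespace Pool.Agent.Results.MP_051ecf_co.BottomsNotSubcomplex

open Pool.Agent.Helper221.BID

/-- For every `k ≥ 2` there is a simplicial `(k + 1)`-ball that is `k`-fold acyclic over every field
and has rank `k` boolean interval decompositions, but none whose bottoms form a subcomplex. -/
theorem result : ∀ k : ℕ, 2 ≤ k → ∃ Δ : Cpx, Δ.IsBall (k + 1) ∧
    (∀ (F : Type u) [Field F], Δ.KFoldAcyclic F k) ∧ (∃ D, Δ.IsDecomp k D) ∧
    ¬ ∃ D, Δ.IsDecomp k D ∧ BottomsSubcomplex D := by
  intro k hk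
  obtain ⟨m, rfl⟩ : ∃ m, k = m + 2 := ⟨k - 2, by omega⟩
  exact ⟨KB m, KB_ball m, fun F _ => KB_kfold F m, KB_decomp m, not_decomp (KB_obs m)⟩

end Pool.Agent.Results.MP_051ecf_co.BottomsNotSubcomplex
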